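import Pool.Agent.Helper40_Dio.AStmt

/-! # DIO (MP_9ca527_nt), Part A, module APB: Baker's theorem applied to Diophantine triples. -/

set_option autoImplicit false

namespace Pool.Agent.DIO.H15

open Real

theorem not_sq_of_succ {k s : ℕ} (hk : 0 < k) (hs : s * s = k + 1) : ¬ IsSquare k := by
  rintro ⟨j, hj⟩
  have h1 : j < s := by
    by_contra h
    push Not at h
    have := Nat.mul_le_mul h h
    omega
  have h2 : (j + 1) * (j + 1) ≤ s * s := Nat.mul_le_mul h1 h1
  have h3 : 0 < j := by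
    rcases Nat.eq_zero_or_pos j with h | h
    · subst h; omega
    · exact h
  nlinarith

theorem sq_of_mul_sq {n c : ℕ} (hc : 0 < c) (h : IsSquare (n * (c * c))) : IsSquare n := by
  obtain ⟨k, hk⟩ := h
  have h1 : c ^ 2 ∣ k ^ 2 := ⟨n, by nlinarith⟩
  rw [Nat.pow_dvd_pow_iff two_ne_zero] at h1
  obtain ⟨j, rfl⟩ := h1
  refine ⟨j, ?_⟩
  have h2 : (c * c) * n = (c * c) * (j * j) := by nlinarith
  exact Nat.eq_of_mul_eq_mul_left (by positivity) h2

/-- real consequences -/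
structure RC (a b c s t : ℝ) (z0 x0 z1 y1 : ℝ) : Prop where
  ha : 1 ≤ a
  hab : a + 1 ≤ b
  hbc : b + 1 ≤ c
  hs : s * s = a * c + 1
  ht : t * t = b * c + 1
  s0 : 0 ≤ s
  t0 : 0 ≤ t
  x0pos : 1 ≤ x0
  y1pos : 1 ≤ y1
  p0 : a * z0 ^ 2 - c * x0 ^ 2 = a - c
  p1 : b * z1 ^ 2 - c * y1 ^ 2 = b - c
  h0 : |z0| ≤ c / 2
  h1 : |z1| ≤ c / 2

theorem rc_of {a b c r s t : ℕ} {z0 x0 z1 y1 x y z : ℤ} {m n : ℕ}
    (h : Meet1 a b c r s t z0 x0 z1 y1 x y z m n) :
    RC a b c s t z0 x0 z1 y1 where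
  ha := by exact_mod_cast h.ha
  hab := by exact_mod_cast h.hab
  hbc := by exact_mod_cast h.hbc
  hs := by exact_mod_cast h.hs
  ht := by exact_mod_cast h.ht
  s0 := by positivity
  t0 := by positivity
  x0pos := by exact_mod_cast h.x0pos
  y1pos := by exact_mod_cast h.y1pos
  p0 := by exact_mod_cast h.p0
  p1 := by exact_mod_cast h.p1
  h0 := by
    have h1 : (4 : ℝ) * (z0 : ℝ) ^ 2 < (c : ℝ) ^ 2 := by exact_mod_cast h.h0
    refine abs_le_of_sq_le_sq' ?_ (by positivity) |> abs_le.mpr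
    nlinarith
  h1 := by
    have h1 : (4 : ℝ) * (z1 : ℝ) ^ 2 < (c : ℝ) ^ 2 := by exact_mod_cast h.h1
    refine abs_le_of_sq_le_sq' ?_ (by positivity) |> abs_le.mpr
    nlinarith

/-- bounds for one Pell solution -/
theorem pell_bd {a c z x : ℝ} (ha : 1 ≤ a) (hac : a + 1 ≤ c) (hx : 1 ≤ x)
    (hp : a * z ^ 2 - c * x ^ 2 = a - c) (hz : |z| ≤ c / 2) :
    x ≤ c ∧ 1 / (2 * c * √c) ≤ x * √c + z * √a ∧ x * √c + z * √a ≤ 2 * c * √c := by
  have hc : 2 ≤ c := by linarith
  have hz2 : z ^ 2 ≤ (c / 2) ^ 2 := sq_le_sq' (abs_le.mp hz).1 (abs_le.mp hz).2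
  have hxc : x ≤ c := by
    have h1 : c * x ^ 2 ≤ c * c ^ 2 := by
      have h2 : a * z ^ 2 ≤ c * (c / 2) ^ 2 := by
        have : a * z ^ 2 ≤ a * (c / 2) ^ 2 := by gcongr
        have : a * (c / 2) ^ 2 ≤ c * (c / 2) ^ 2 := by
          apply mul_le_mul_of_nonneg_right (by linarith) (by positivity)
        linarith
      nlinarith
    have h3 : x ^ 2 ≤ c ^ 2 := le_of_mul_le_mul_left h1 (by linarith)
    exact (abs_le_of_sq_le_sq' h3 (by linarith)).2
  have sc : √c * √c = c := Real.mul_self_sqrt (by linarith)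
  have sa : √a * √a = a := Real.mul_self_sqrt (by linarith)
  have sc0 : 0 < √c := Real.sqrt_pos.mpr (by linarith)
  have sa0 : 0 < √a := Real.sqrt_pos.mpr (by linarith)
  have sac : √a ≤ √c := Real.sqrt_le_sqrt (by linarith)
  have hza : |z * √a| ≤ c / 2 * √c := by
    rw [abs_mul, abs_of_pos sa0]
    exact mul_le_mul hz sac sa0.le (by linarith)
  have hxx : x * √c ≤ c * √c := mul_le_mul_of_nonneg_right hxc sc0.le
  have hxl : 0 < x * √c := by positivity
  obtain ⟨hz1, hz2'⟩ := abs_le.mp hza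
  have hprod : (x * √c + z * √a) * (x * √c - z * √a) = c - a := by
    have : (x * √c + z * √a) * (x * √c - z * √a) = x ^ 2 * (√c * √c) - z ^ 2 * (√a * √a) := by
      ring
    rw [this, sc, sa]
    linarith
  have hpos : 0 < x * √c + z * √a := by
    by_contra hn
    push Not at hn
    have h2 : 0 < x * √c - z * √a := by linarith
    have h3 : (x * √c + z * √a) * (x * √c - z * √a) ≤ 0 :=
      mul_nonpos_of_nonpos_of_nonneg hn h2.le
    linarith
  have hcs : 0 < c * √c := by positivity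
  refine ⟨hxc, ?_, by linarith⟩
  rw [div_le_iff₀ (by positivity)]
  have h4 : x * √c - z * √a ≤ 2 * c * √c := by linarith
  have h5 : (x * √c + z * √a) * (x * √c - z * √a) ≤ (x * √c + z * √a) * (2 * c * √c) :=
    mul_le_mul_of_nonneg_left h4 hpos.le
  linarith

/-- APB -/
theorem apb (hBak : BakStatement) (hRng : RngStatement) (hLam : LamStatement)
    (hInd : IndStatement) : ApbStatement := by
  obtain ⟨C, hC1, hC⟩ := hBak
  refine ⟨100 * C * 20 ^ 60, by nlinarith [show (1 : ℝ) ≤ 20 ^ 60 by norm_num], ?_⟩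
  intro a b c r s t z0 x0 z1 y1 x y z m n h
  have R := rc_of h
  have hc3 : (3 : ℝ) ≤ c := by linarith [R.ha, R.hab, R.hbc]
  have hc0 : (0 : ℝ) < c := by linarith
  have hlog : 1 ≤ log c := by
    rw [Real.le_log_iff_exp_le hc0]
    have := Real.exp_one_lt_d9
    linarith
  have hl60 : (1 : ℝ) ≤ log c ^ 60 := one_le_pow₀ hlog
  have h2060 : (1 : ℝ) ≤ 20 ^ 60 := by norm_num
  by_cases hmn : m + n < 100
  · have h1 : ((m : ℝ) + n) < 100 := by exact_mod_cast hmn
    have h2 : (100 : ℝ) ≤ 100 * C * 20 ^ 60 * log c ^ 60 := by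
      have : (1 : ℝ) ≤ C * 20 ^ 60 * log c ^ 60 :=
        one_le_mul_of_one_le_of_one_le (one_le_mul_of_one_le_of_one_le hC1 h2060) hl60
      nlinarith
    linarith
  push Not at hmn
  -- squares
  have hap : 0 < a := h.ha
  have hbp : 0 < b := lt_trans h.ha h.hab
  have hcp : 0 < c := lt_trans hbp h.hbc
  have nsp : ¬ IsSquare (a * c) := not_sq_of_succ (Nat.mul_pos hap hcp) h.hs
  have nsq : ¬ IsSquare (b * c) := not_sq_of_succ (Nat.mul_pos hbp hcp) h.ht
  have nspq : ¬ IsSquare (a * c * (b * c)) := by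
    intro hq
    have e : a * c * (b * c) = a * b * (c * c) := by ring
    rw [e] at hq
    exact not_sq_of_succ (Nat.mul_pos hap hbp) h.hr (sq_of_mul_sq hcp hq)
  obtain ⟨S, iS, O, u, v, hu, hv, -, σu0, σv0, σu1, σv1, σu2, σv2, σu3, σv3⟩ :=
    hRng (a * c) (b * c) nsp nsq nspq
  letI := iS
  set P : ℝ := √((a * c : ℕ) : ℝ) with hP
  set Q' : ℝ := √((b * c : ℕ) : ℝ) with hQ'
  have hσu : ∀ j, |O.σ j u| = P := by
    intro j
    fin_cases j
    · show |O.σ 0 u| = P
      rw [σu0]; exact abs_of_nonneg (Real.sqrt_nonneg _)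
    · show |O.σ 1 u| = P
      rw [σu1, abs_neg]; exact abs_of_nonneg (Real.sqrt_nonneg _)
    · show |O.σ 2 u| = P
      rw [σu2]; exact abs_of_nonneg (Real.sqrt_nonneg _)
    · show |O.σ 3 u| = P
      rw [σu3, abs_neg]; exact abs_of_nonneg (Real.sqrt_nonneg _)
  have hσv : ∀ j, |O.σ j v| = Q' := by
    intro j
    fin_cases j
    · show |O.σ 0 v| = Q'
      rw [σv0]; exact abs_of_nonneg (Real.sqrt_nonneg _)
    · show |O.σ 1 v| = Q'
      rw [σv1]; exact abs_of_nonneg (Real.sqrt_nonneg _)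
    · show |O.σ 2 v| = Q'
      rw [σv2, abs_neg]; exact abs_of_nonneg (Real.sqrt_nonneg _)
    · show |O.σ 3 v| = Q'
      rw [σv3, abs_neg]; exact abs_of_nonneg (Real.sqrt_nonneg _)
  have P0 : 0 ≤ P := Real.sqrt_nonneg _
  have Q0 : 0 ≤ Q' := Real.sqrt_nonneg _
  have PP : P * P = a * c := by
    rw [hP, Real.mul_self_sqrt (by positivity)]; push_cast; ring
  have QQ : Q' * Q' = b * c := by
    rw [hQ', Real.mul_self_sqrt (by positivity)]; push_cast; ring
  have hPc : P ≤ c := by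
    refine (abs_le_of_sq_le_sq' ?_ hc0.le).2
    nlinarith [R.hab, R.hbc, R.ha]
  have hQc : Q' ≤ c := by
    refine (abs_le_of_sq_le_sq' ?_ hc0.le).2
    nlinarith [R.hab, R.hbc, R.ha]
  have hsc : (s : ℝ) ≤ c := by
    refine (abs_le_of_sq_le_sq' ?_ hc0.le).2
    nlinarith [R.hab, R.hbc, R.ha, R.hs]
  have htc : (t : ℝ) ≤ c := by
    refine (abs_le_of_sq_le_sq' ?_ hc0.le).2
    nlinarith [R.hab, R.hbc, R.ha, R.ht]
  have hs1 : (1 : ℝ) ≤ s := by
    have h1 : 0 < s := by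
      rcases Nat.eq_zero_or_pos s with h0 | h0
      · have := h.hs; rw [h0] at this; omega
      · exact h0
    exact_mod_cast h1
  have ht1 : (1 : ℝ) ≤ t := by
    have h1 : 0 < t := by
      rcases Nat.eq_zero_or_pos t with h0 | h0
      · have := h.ht; rw [h0] at this; omega
      · exact h0
    exact_mod_cast h1
  obtain ⟨bx, bP1, bP2⟩ := pell_bd R.ha (by linarith [R.hab, R.hbc]) R.x0pos R.p0 R.h0
  obtain ⟨by1, bR1, bR2⟩ := pell_bd (by linarith [R.ha, R.hab]) R.hbc R.y1pos R.p1 R.h1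
  -- square roots
  have sa0 : 0 < √(a : ℝ) := Real.sqrt_pos.mpr (by linarith [R.ha])
  have sb0 : 0 < √(b : ℝ) := Real.sqrt_pos.mpr (by linarith [R.ha, R.hab])
  have sc0 : 0 < √(c : ℝ) := Real.sqrt_pos.mpr hc0
  have saa : √(a : ℝ) * √(a : ℝ) = a := Real.mul_self_sqrt (by linarith [R.ha])
  have sbb : √(b : ℝ) * √(b : ℝ) = b := Real.mul_self_sqrt (by linarith [R.ha, R.hab])
  have scc : √(c : ℝ) * √(c : ℝ) = c := Real.mul_self_sqrt hc0.le
  have eP : P = √(a : ℝ) * √(c : ℝ) := by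
    rw [hP]; push_cast; exact Real.sqrt_mul (by positivity) _
  have eQ : Q' = √(b : ℝ) * √(c : ℝ) := by
    rw [hQ']; push_cast; exact Real.sqrt_mul (by positivity) _
  have sb1 : 1 ≤ √(b : ℝ) := by
    rw [Real.one_le_sqrt]; linarith [R.ha, R.hab]
  have sac : √(a : ℝ) ≤ √(c : ℝ) := Real.sqrt_le_sqrt (by linarith [R.hab, R.hbc])
  have scc' : √(c : ℝ) ≤ c := by
    have : 1 ≤ √(c : ℝ) := by rw [Real.one_le_sqrt]; linarith
    nlinarith
  set A3 : ℝ := alp3 a b c z0 x0 z1 y1 with hA3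
  have numpos : 0 < (x0 : ℝ) * √(c : ℝ) + z0 * √(a : ℝ) := lt_of_lt_of_le (by positivity) bP1
  have denpos : 0 < (y1 : ℝ) * √(c : ℝ) + z1 * √(b : ℝ) := lt_of_lt_of_le (by positivity) bR1
  have A3pos : 0 < A3 := by
    rw [hA3]; unfold alp3; positivity
  -- the identity for eta
  have hcb : ((c - b : ℕ) : ℝ) = (c : ℝ) - b := by
    rw [Nat.cast_sub h.hbc.le]
  have key : P * Q' * ((x0 : ℝ) * y1 * c - x0 * z1 * Q' + z0 * y1 * P) - z0 * z1 * a * b * c
      = ((c : ℝ) * a * (c - b)) * A3 := by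
    rw [hA3]
    unfold alp3
    rw [mul_div_assoc', eq_div_iff (by positivity), eP, eQ]
    have e1 : (c : ℝ) - b = (y1 * √(c : ℝ)) ^ 2 - (z1 * √(b : ℝ)) ^ 2 := by
      rw [mul_pow, mul_pow, Real.sq_sqrt hc0.le, Real.sq_sqrt (by linarith [R.ha, R.hab])]
      linarith [R.p1]
    rw [e1]
    have ea : (a : ℝ) = √(a : ℝ) ^ 2 := (Real.sq_sqrt (by linarith [R.ha])).symm
    have eb : (b : ℝ) = √(b : ℝ) ^ 2 := (Real.sq_sqrt (by linarith [R.ha, R.hab])).symm
    have ec : (c : ℝ) = √(c : ℝ) ^ 2 := (Real.sq_sqrt hc0.le).symm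
    generalize √(a : ℝ) = A at *
    generalize √(b : ℝ) = B at *
    generalize √(c : ℝ) = G at *
    rw [ea, eb, ec]
    ring
  -- bounds for the real expression of eta with signs
  have hη : ∀ e f : ℝ, |e| = P → |f| = Q' →
      |e * f * ((x0 : ℝ) * y1 * c - x0 * z1 * f + z0 * y1 * e) - z0 * z1 * a * b * c|
        ≤ 4 * (c : ℝ) ^ 5 := by
    intro e f he hf
    have hx0 : |(x0 : ℝ)| ≤ c := by rw [abs_of_pos (by linarith [R.x0pos])]; exact bx
    have hy1 : |(y1 : ℝ)| ≤ c := by rw [abs_of_pos (by linarith [R.y1pos])]; exact by1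
    have hz0 := R.h0
    have hz1 := R.h1
    have he' : |e| ≤ c := he ▸ hPc
    have hf' : |f| ≤ c := hf ▸ hQc
    have a0 : |(a : ℝ)| ≤ c := by rw [abs_of_pos (by linarith [R.ha])]; linarith [R.hab, R.hbc]
    have b0 : |(b : ℝ)| ≤ c := by
      rw [abs_of_pos (by linarith [R.ha, R.hab])]; linarith [R.hbc]
    have c0 : |(c : ℝ)| = c := abs_of_pos hc0
    have t1 : |e * f * ((x0 : ℝ) * y1 * c)| ≤ c * c * (c * c * c) := by
      simp only [abs_mul, c0]
      gcongr
    have t2 : |e * f * ((x0 : ℝ) * z1 * f)| ≤ c * c * (c * (c / 2) * c) := by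
      simp only [abs_mul]
      gcongr
    have t3 : |e * f * ((z0 : ℝ) * y1 * e)| ≤ c * c * (c / 2 * c * c) := by
      simp only [abs_mul]
      gcongr
    have t4 : |(z0 : ℝ) * z1 * a * b * c| ≤ c / 2 * (c / 2) * c * c * c := by
      simp only [abs_mul, c0]
      gcongr
    have e0 : e * f * ((x0 : ℝ) * y1 * c - x0 * z1 * f + z0 * y1 * e) - z0 * z1 * a * b * c
        = e * f * ((x0 : ℝ) * y1 * c) - e * f * ((x0 : ℝ) * z1 * f)
          + e * f * ((z0 : ℝ) * y1 * e) - z0 * z1 * a * b * c := by ring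
    rw [e0]
    have := abs_sub (e * f * ((x0 : ℝ) * y1 * c) - e * f * ((x0 : ℝ) * z1 * f)
          + e * f * ((z0 : ℝ) * y1 * e)) ((z0 : ℝ) * z1 * a * b * c)
    have := abs_add_le (e * f * ((x0 : ℝ) * y1 * c) - e * f * ((x0 : ℝ) * z1 * f))
          (e * f * ((z0 : ℝ) * y1 * e))
    have := abs_sub (e * f * ((x0 : ℝ) * y1 * c)) (e * f * ((x0 : ℝ) * z1 * f))
    have hc5 : 0 < (c : ℝ) ^ 5 := by positivity
    nlinarith
  -- powers of c
  have hQexp : exp (20 * log c) = (c : ℝ) ^ 20 := by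
    rw [mul_comm, Real.exp_mul, Real.exp_log hc0]
    norm_cast
  have c1le : (1 : ℝ) ≤ c := by linarith
  have pw : ∀ k : ℕ, k ≤ 18 → 4 * (c : ℝ) ^ k ≤ (c : ℝ) ^ 20 := by
    intro k hk
    have h1 : (4 : ℝ) ≤ c ^ 2 := by nlinarith
    calc 4 * (c : ℝ) ^ k ≤ c ^ 2 * c ^ 18 :=
          mul_le_mul h1 (pow_le_pow_right₀ c1le hk) (by positivity) (by positivity)
      _ = (c : ℝ) ^ 20 := by ring
  have hD : ((c * a * (c - b) : ℕ) : ℝ) = (c : ℝ) * a * (c - b) := by
    push_cast [hcb]; rfl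
  have hD1 : (1 : ℝ) ≤ (c : ℝ) * a * (c - b) := by
    have h1 : (1 : ℝ) ≤ c - b := by linarith [R.hbc]
    have h2 : (1 : ℝ) ≤ c * a := by nlinarith [R.ha]
    nlinarith
  have hD3 : (c : ℝ) * a * (c - b) ≤ (c : ℝ) ^ 3 := by
    have h1 : (c : ℝ) - b ≤ c := by linarith [R.ha, R.hab]
    have h2 : (a : ℝ) ≤ c := by linarith [R.hab, R.hbc]
    have h3 : (0 : ℝ) ≤ c - b := by linarith [R.hbc]
    calc (c : ℝ) * a * (c - b) ≤ c * c * c := by
          apply mul_le_mul (mul_le_mul_of_nonneg_left h2 hc0.le) h1 h3 (by positivity)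
      _ = (c : ℝ) ^ 3 := by ring
  have logbd : ∀ w : ℝ, 0 < w → w ≤ (c : ℝ) ^ 20 → 1 ≤ w * (c : ℝ) ^ 20 →
      |log w| ≤ 20 * log c := by
    intro w hw h1 h2
    rw [abs_le]
    constructor
    · have h3 := Real.log_le_log one_pos h2
      rw [Real.log_one, Real.log_mul hw.ne' (by positivity), Real.log_pow] at h3
      push_cast at h3
      linarith
    · have h3 := Real.log_le_log hw h1
      rw [Real.log_pow] at h3
      push_cast at h3
      linarith
  have al1 : alp a c s = s + P := rfl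
  have al2 : alp b c t = t + Q' := rfl
  have hc20 : (1 : ℝ) ≤ (c : ℝ) ^ 20 := one_le_pow₀ c1le
  have A3le : A3 ≤ 4 * (c : ℝ) ^ 5 := by
    have h1 := hη P Q' (abs_of_nonneg P0) (abs_of_nonneg Q0)
    rw [key, abs_of_pos (by positivity)] at h1
    nlinarith
  have A3ge : 1 ≤ A3 * (c : ℝ) ^ 20 := by
    have h1 : √(b : ℝ) * ((x0 : ℝ) * √(c : ℝ) + z0 * √(a : ℝ)) ≥ 1 / (2 * c * √(c : ℝ)) := by
      have h2 : 0 < 1 / (2 * (c : ℝ) * √(c : ℝ)) := by positivity
      nlinarith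
    have h3 : √(a : ℝ) * ((y1 : ℝ) * √(c : ℝ) + z1 * √(b : ℝ)) ≤ √(c : ℝ) * (2 * c * √(c : ℝ)) :=
      mul_le_mul sac bR2 denpos.le sc0.le
    have h4 : √(c : ℝ) * (2 * c * √(c : ℝ)) = 2 * (c : ℝ) ^ 2 := by
      calc √(c : ℝ) * (2 * c * √(c : ℝ)) = 2 * c * (√(c : ℝ) * √(c : ℝ)) := by ring
        _ = _ := by rw [scc]; ring
    have h5 : A3 = √(b : ℝ) * ((x0 : ℝ) * √(c : ℝ) + z0 * √(a : ℝ)) /
        (√(a : ℝ) * ((y1 : ℝ) * √(c : ℝ) + z1 * √(b : ℝ))) := rfl
    have h6 : 1 / (2 * (c : ℝ) * c) / (2 * (c : ℝ) ^ 2) ≤ A3 := by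
      rw [h5]
      have h7 : 1 / (2 * (c : ℝ) * c) ≤ 1 / (2 * c * √(c : ℝ)) := by
        apply one_div_le_one_div_of_le (by positivity)
        have : 2 * (c : ℝ) * √(c : ℝ) ≤ 2 * c * c := by
          apply mul_le_mul_of_nonneg_left scc' (by positivity)
        linarith
      apply div_le_div₀ (by positivity) (by linarith) (by positivity) (by linarith)
    have h8 : 1 / (2 * (c : ℝ) * c) / (2 * (c : ℝ) ^ 2) * (c : ℝ) ^ 20 = (c : ℝ) ^ 16 / 4 := by
      field_simp
      ring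
    have h9 : (1 : ℝ) ≤ (c : ℝ) ^ 16 / 4 := by
      have h10 : (c : ℝ) ^ 2 ≤ c ^ 16 := pow_le_pow_right₀ c1le (by norm_num)
      nlinarith
    calc (1 : ℝ) ≤ (c : ℝ) ^ 16 / 4 := h9
      _ = 1 / (2 * (c : ℝ) * c) / (2 * (c : ℝ) ^ 2) * (c : ℝ) ^ 20 := h8.symm
      _ ≤ A3 * (c : ℝ) ^ 20 := mul_le_mul_of_nonneg_right h6 (by positivity)
  -- the data
  let d : BData O :=
    { α1 := (s : S) + u
      α2 := (t : S) + v
      η := u * v * ((x0 : S) * y1 * c - x0 * z1 * v + z0 * y1 * u) - z0 * z1 * a * b * c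
      D := c * a * (c - b)
      a1 := alp a c s
      a2 := alp b c t
      a3 := A3
      b1 := m
      b2 := -(n : ℤ)
      Q := 20 * log c
      B := (m : ℝ) + n
      hD := by
        have : (1 : ℝ) ≤ ((c * a * (c - b) : ℕ) : ℝ) := by rw [hD]; exact hD1
        exact_mod_cast this
      hQ := by linarith
      hB := by
        have : (100 : ℝ) ≤ (m : ℝ) + n := by exact_mod_cast hmn
        linarith
      p1 := by rw [al1]; linarith
      p2 := by rw [al2]; linarith
      p3 := A3pos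
      s1 := by rw [map_add, map_natCast, σu0, al1]
      s2 := by rw [map_add, map_natCast, σv0, al2]
      s3 := by
        rw [hD, ← key]
        simp only [map_sub, map_mul, map_add, map_natCast, map_intCast, σu0, σv0]
      c1 := by
        intro j
        rw [hQexp, map_add, map_natCast]
        have h1 := abs_add_le (s : ℝ) (O.σ j u)
        rw [hσu j, abs_of_nonneg (by positivity : (0 : ℝ) ≤ s)] at h1
        have h2 := pw 1 (by norm_num)
        rw [pow_one] at h2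
        linarith
      c2 := by
        intro j
        rw [hQexp, map_add, map_natCast]
        have h1 := abs_add_le (t : ℝ) (O.σ j v)
        rw [hσv j, abs_of_nonneg (by positivity : (0 : ℝ) ≤ t)] at h1
        have h2 := pw 1 (by norm_num)
        rw [pow_one] at h2
        linarith
      c3 := by
        intro j
        rw [hQexp]
        simp only [map_sub, map_mul, map_add, map_natCast, map_intCast]
        exact (hη _ _ (hσu j) (hσv j)).trans (pw 5 (by norm_num))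
      cD := by
        rw [hQexp, hD]
        have h2 := pw 3 (by norm_num)
        have : (0 : ℝ) < (c : ℝ) ^ 3 := by positivity
        linarith
      l1 := by
        apply logbd _ (by rw [al1]; linarith)
        · rw [al1]
          have h2 := pw 1 (by norm_num)
          rw [pow_one] at h2
          linarith
        · have : (1 : ℝ) ≤ alp a c s := by rw [al1]; linarith
          exact one_le_mul_of_one_le_of_one_le this hc20
      l2 := by
        apply logbd _ (by rw [al2]; linarith)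
        · rw [al2]
          have h2 := pw 1 (by norm_num)
          rw [pow_one] at h2
          linarith
        · have : (1 : ℝ) ≤ alp b c t := by rw [al2]; linarith
          exact one_le_mul_of_one_le_of_one_le this hc20
      l3 := logbd _ A3pos (A3le.trans (pw 5 (by norm_num))) A3ge
      hb1 := by
        push_cast
        rw [abs_of_nonneg (by positivity : (0 : ℝ) ≤ m)]
        have : (0 : ℝ) ≤ n := by positivity
        linarith
      hb2 := by
        push_cast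
        rw [abs_neg, abs_of_nonneg (by positivity : (0 : ℝ) ≤ n)]
        have : (0 : ℝ) ≤ m := by positivity
        linarith
      hΛ := by
        have h1 := hLam a b c r s t z0 x0 z1 y1 x y z m n h hmn
        push_cast
        rw [neg_mul, ← sub_eq_add_neg]
        exact h1 }
  have hfin := hC S O d (hInd a b c r s t z0 x0 z1 y1 x y z m n h)
  have hfin' : (m : ℝ) + n ≤ C * (20 * log c) ^ 60 := hfin
  rw [mul_pow] at hfin'
  have h5 : (0 : ℝ) ≤ C * (20 ^ 60 * log c ^ 60) := by positivity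
  calc (m : ℝ) + n ≤ C * (20 ^ 60 * log c ^ 60) := hfin'
    _ ≤ 100 * (C * (20 ^ 60 * log c ^ 60)) := by linarith
    _ = _ := by ring

end Pool.Agent.DIO.H15
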